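import Pool.Agent.Helper34.CP.Goals

/-! # Packet CP-TOP: the grading is topological -/

open scoped ComplexOrder
open Filter Topology

namespace Pool.Agent.Helper37.CP

open Pool.Agent.Helper39.Uct
open Pool.Agent.Helper34.CP

variable {B : Type} [NonUnitalCStarAlgebra B]

/-- Elements whose compressions by `E l` are homogeneous of nonzero degree. -/
def Good (E : ℕ → Submodule ℂ B) (z : B) : Prop :=
  ∃ m j : ℕ, 1 ≤ j ∧ ∀ l, m ≤ l → ∀ y ∈ E l,
    star y * z * y ∈ E j ∨ star (star y * z * y) ∈ E j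

theorem norm_sand_le (x a : B) (hx : ‖x‖ ≤ 1) : ‖star x * a * x‖ ≤ ‖a‖ := by
  calc ‖star x * a * x‖ ≤ ‖star x * a‖ * ‖x‖ := norm_mul_le _ _
    _ ≤ (‖star x‖ * ‖a‖) * ‖x‖ := by gcongr; exact norm_mul_le _ _
    _ ≤ (1 * ‖a‖) * 1 := by
        rw [norm_star]
        gcongr
    _ = ‖a‖ := by ring

theorem top_aux (hBAS : S_BAS) (hNRM : Pool.Agent.Helper34.CP.S_NRM) (hMK : S_MK) {E : ℕ → Submodule ℂ B}
    (hS : Sys E) (hT : TI (E 0)) (hNA : NA E) (hNR : NR E) {Q : Type} (s : Finset Q)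
    (d : Q → B) (hd : ∀ q ∈ s, Good E (d q)) (m : ℕ) (c : B) (hc : c ∈ FF E m) :
    ‖star c * c‖ ≤ ‖star c * c + ∑ q ∈ s, d q‖ := by
  classical
  have hB := hBAS B E hS
  have hd' : ∀ q, ∃ m j : ℕ, q ∈ s → 1 ≤ j ∧ ∀ l, m ≤ l → ∀ y ∈ E l,
      star y * d q * y ∈ E j ∨ star (star y * d q * y) ∈ E j := by
    intro q
    by_cases hq : q ∈ s
    · obtain ⟨m, j, h⟩ := hd q hq
      exact ⟨m, j, fun _ => h⟩
    · exact ⟨0, 0, fun h => absurd h hq⟩
  choose mq jq hmj using hd'
  have key : ∀ ε : ℝ, 0 < ε → ε < 1 →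
      (1 - ε) ^ 2 * ‖star c * c‖ ≤ ‖star c * c + ∑ q ∈ s, d q‖ := by
    intro ε hε hε1
    set M := max m (s.sup mq) with hM
    have hcM : c ∈ FF E M := hB.ffMono m M (le_max_left _ _) hc
    obtain ⟨l, hl, z, hz, hz1, hz2⟩ := hNRM B E hS hNR M c hcM ε hε hε1
    have hcc : star c * c ∈ FF E M := hB.ffMul M _ (hB.ffStar M c hcM) _ hcM
    have e1 : star (c * z) * (c * z) = star z * (star c * c) * z := by
      rw [star_mul]; simp only [mul_assoc]
    have hc' : star (c * z) * (c * z) ∈ E 0 := by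
      rw [e1]
      exact hB.sandF M l hl _ hcc z hz z hz
    obtain ⟨l', w, hw, hw1, hw2, hw3⟩ := hMK B E hS hT hNA hNR
      (s.toList.map fun q => star z * d q * z)
      (by
        intro x hx
        obtain ⟨q, hq, rfl⟩ := List.mem_map.1 hx
        have hq' : q ∈ s := by simpa using hq
        obtain ⟨h1, h2⟩ := hmj q hq'
        refine ⟨jq q, h1, h2 l ?_ z hz⟩
        exact ((Finset.le_sup (f := mq) hq').trans (le_max_right _ _)).trans hl)
      (c * z) hc' ε hε hε1
    have hzero : ∀ q ∈ s, star w * (star z * d q * z) * w = 0 := by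
      intro q hq
      exact hw2 _ (List.mem_map.2 ⟨q, by simpa using hq, rfl⟩)
    have e2 : star w * (star (c * z) * (c * z)) * w =
        star w * (star z * (star c * c + ∑ q ∈ s, d q) * z) * w := by
      have h3 : star w * (star z * (∑ q ∈ s, d q) * z) * w = 0 := by
        have h4 : star w * (star z * (∑ q ∈ s, d q) * z) * w =
            ∑ q ∈ s, star w * (star z * d q * z) * w := by
          simp only [Finset.mul_sum, Finset.sum_mul]
        rw [h4]
        exact Finset.sum_eq_zero hzero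
      rw [e1]
      have h5 : star w * (star z * (star c * c + ∑ q ∈ s, d q) * z) * w =
          star w * (star z * (star c * c) * z) * w +
            star w * (star z * (∑ q ∈ s, d q) * z) * w := by
        simp only [mul_add, add_mul]
      rw [h5, h3, add_zero]
    have h6 : ‖star w * (star (c * z) * (c * z)) * w‖ ≤ ‖star c * c + ∑ q ∈ s, d q‖ := by
      rw [e2]
      exact (norm_sand_le w _ hw1).trans (norm_sand_le z _ hz1)
    have h7 : 0 ≤ 1 - ε := by linarith
    calc (1 - ε) ^ 2 * ‖star c * c‖ = (1 - ε) * ((1 - ε) * ‖star c * c‖) := by ring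
      _ ≤ (1 - ε) * ‖star z * (star c * c) * z‖ := mul_le_mul_of_nonneg_left hz2 h7
      _ = (1 - ε) * ‖star (c * z) * (c * z)‖ := by rw [e1]
      _ ≤ ‖star w * (star (c * z) * (c * z)) * w‖ := hw3
      _ ≤ _ := h6
  have hlim : Tendsto (fun ε : ℝ => (1 - ε) ^ 2 * ‖star c * c‖) (𝓝[>] 0)
      (𝓝 ((1 - 0) ^ 2 * ‖star c * c‖)) := by
    have hcont : Continuous fun ε : ℝ => (1 - ε) ^ 2 * ‖star c * c‖ := by fun_prop
    exact (hcont.tendsto 0).mono_left nhdsWithin_le_nhds
  have h8 := le_of_tendsto hlim (by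
    filter_upwards [Ioo_mem_nhdsGT (show (0 : ℝ) < 1 by norm_num)] with ε hε
    exact key ε hε.1 hε.2)
  simpa using h8

theorem top (hBAS : S_BAS) (hNRM : Pool.Agent.Helper34.CP.S_NRM) (hMK : S_MK) : S_TOP := by
  classical
  intro B _ E hS hT hNA hNR G hG s b hb h1
  have hB := hBAS B E hS
  have claim : ∀ c ∈ BB E 0, ∀ d : Multiplicative ℤ → B,
      (∀ q ∈ s.erase 1, d q ∈ BB E (Multiplicative.toAdd q)) →
      ‖star c * c‖ ≤ ‖star c * c + ∑ q ∈ s.erase 1, d q‖ := by
    intro c hc d hd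
    have h2 : ∀ m, ∀ c ∈ FF E m, ‖star c * c‖ ≤ ‖star c * c + ∑ q ∈ s.erase 1, d q‖ := by
      intro m c hc
      let A : Multiplicative ℤ → Set B := fun q => {z | q ∈ s.erase 1 → Good E z}
      have hcl : IsClosed {d : Multiplicative ℤ → B |
          ‖star c * c‖ ≤ ‖star c * c + ∑ q ∈ s.erase 1, d q‖} :=
        isClosed_le continuous_const (by fun_prop)
      have hsub : Set.pi Set.univ A ⊆ {d : Multiplicative ℤ → B |
          ‖star c * c‖ ≤ ‖star c * c + ∑ q ∈ s.erase 1, d q‖} := by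
        intro d hd
        exact top_aux hBAS hNRM hMK hS hT hNA hNR (s.erase 1) d
          (fun q hq => hd q (Set.mem_univ q) hq) m c hc
      have hcl2 := closure_minimal hsub hcl
      rw [closure_pi_set] at hcl2
      apply hcl2
      intro q _
      by_cases hq : q ∈ s.erase 1
      · have hq0 : Multiplicative.toAdd q ≠ 0 := by
          intro h0
          exact (Finset.mem_erase.1 hq).1 (by rw [← toAdd_eq_zero]; exact h0)
        rw [Metric.mem_closure_iff]
        intro ε hε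
        obtain ⟨m', j, z', hj, hz', hz2⟩ := hB.apx _ hq0 (d q) (hd q hq) ε hε
        refine ⟨z', fun _ => ⟨m', j, hj, hz2⟩, ?_⟩
        rw [dist_eq_norm]
        exact hz'
      · exact subset_closure fun h => absurd h hq
    have hcl : IsClosed {c : B | ‖star c * c‖ ≤ ‖star c * c + ∑ q ∈ s.erase 1, d q‖} :=
      isClosed_le (by fun_prop) (by fun_prop)
    have hmem : c ∈ closure {c : B | ‖star c * c‖ ≤ ‖star c * c + ∑ q ∈ s.erase 1, d q‖} := by
      rw [Metric.mem_closure_iff]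
      intro ε hε
      obtain ⟨m, z', hz', hz2⟩ := hB.apx0 c hc ε hε
      refine ⟨z', h2 m z' hz', ?_⟩
      rw [dist_eq_norm]
      exact hz2
    rwa [hcl.closure_eq] at hmem
  have hb1 : b 1 ∈ BB E 0 := by
    have := hb 1 h1
    rw [hG 1] at this
    exact this
  have h3 := claim (b 1) hb1 (fun q => star (b 1) * b q) (by
    intro q hq
    have hq' := Finset.mem_of_mem_erase hq
    have h4 := G.mul_mem 1⁻¹ q _ _ (G.star_mem 1 _ (hb 1 h1)) (hb q hq')
    rw [inv_one, one_mul, hG q] at h4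
    exact h4)
  have h5 : star (b 1) * b 1 + ∑ q ∈ s.erase 1, star (b 1) * b q =
      star (b 1) * ∑ q ∈ s, b q := by
    rw [← Finset.mul_sum, ← mul_add, Finset.add_sum_erase s b h1]
  rw [h5, CStarRing.norm_star_mul_self] at h3
  have h6 : ‖star (b 1) * ∑ q ∈ s, b q‖ ≤ ‖b 1‖ * ‖∑ q ∈ s, b q‖ := by
    refine (norm_mul_le _ _).trans ?_
    rw [norm_star]
  rcases eq_or_lt_of_le (norm_nonneg (b 1)) with h0 | h0
  · rw [← h0]; exact norm_nonneg _
  · exact le_of_mul_le_mul_left (h3.trans h6) h0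

end Pool.Agent.Helper37.CP
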